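import Pool.Agent.W425.GN.Defs3

set_option autoImplicit false

/-! GN-A6: the Ore condition. -/

namespace Pool.Agent.W584.GN

open MvPolynomial Pool.Agent.W425.GN

section
variable {n : ℕ} {R : Type} [CommRing R]

theorem act_add (P Q : MvPolynomial (Sy n) R) (s : ℕ) (φ : MvPolynomial (Fin n) R) :
    act (P + Q) s φ = act P s φ + act Q s φ := by
  unfold act; rw [map_add]

theorem act_sub (P Q : MvPolynomial (Sy n) R) (s : ℕ) (φ : MvPolynomial (Fin n) R) :
    act (P - Q) s φ = act P s φ - act Q s φ := by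
  unfold act; rw [map_sub]

theorem act_smul (c : R) (P : MvPolynomial (Sy n) R) (s : ℕ) (φ : MvPolynomial (Fin n) R) :
    act (c • P) s φ = c • act P s φ := by
  unfold act; rw [map_smul]

theorem act_px (h1 : TaskA1) (g : MvPolynomial (Fin n) R) : ∀ (Q : MvPolynomial (Sy n) R) (s : ℕ)
    (φ : MvPolynomial (Fin n) R),
    act (rename (fun j => (some (Sum.inl j) : Sy n)) g * Q) s φ = g * act Q s φ := by
  induction g using MvPolynomial.induction_on with
  | C a =>
    intro Q s φ
    rw [rename_C, ← smul_eq_C_mul, act_smul, smul_eq_C_mul]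
  | add p q hp hq =>
    intro Q s φ
    rw [map_add, add_mul, act_add, hp, hq, add_mul]
  | mul_X p j hp =>
    intro Q s φ
    rw [map_mul, rename_X, mul_assoc, hp]
    have h2 := (h1 Q s φ).2.2.1 j
    unfold lx at h2
    rw [h2, mul_assoc]

/-- the Ore condition with the exponent `d` -/
def Od (u : MvPolynomial (Fin n) R) (Q : MvPolynomial (Sy n) R) (d : ℕ) : Prop :=
  ∃ Q' : MvPolynomial (Sy n) R, ∀ (s : ℕ) (φ : MvPolynomial (Fin n) R),
    u ^ d * act Q s φ = act Q' s (u * φ)

/-- the Ore condition -/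
def On (u : MvPolynomial (Fin n) R) (Q : MvPolynomial (Sy n) R) : Prop := ∃ d, Od u Q d

theorem Od_mono (h1 : TaskA1) {u : MvPolynomial (Fin n) R} {Q : MvPolynomial (Sy n) R} {d : ℕ}
    (h : Od u Q d) (k : ℕ) : Od u Q (k + d) := by
  induction k with
  | zero => rwa [Nat.zero_add]
  | succ k ih =>
    obtain ⟨Q', hQ'⟩ := ih
    refine ⟨rename (fun j => (some (Sum.inl j) : Sy n)) u * Q', fun s φ => ?_⟩
    rw [act_px h1, ← hQ', Nat.succ_add, pow_succ']
    ring

theorem On_add (h1 : TaskA1) {u : MvPolynomial (Fin n) R} {Q Q' : MvPolynomial (Sy n) R}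
    (h : On u Q) (h' : On u Q') : On u (Q + Q') := by
  obtain ⟨d, hd⟩ := h
  obtain ⟨d', hd'⟩ := h'
  obtain ⟨W, hW⟩ := Od_mono h1 hd d'
  obtain ⟨W', hW'⟩ := Od_mono h1 hd' d
  refine ⟨d' + d, W + W', fun s φ => ?_⟩
  rw [act_add, act_add, mul_add, hW, Nat.add_comm d' d, hW']

theorem On_smul (c : R) {u : MvPolynomial (Fin n) R} {Q : MvPolynomial (Sy n) R}
    (h : On u Q) : On u (c • Q) := by
  obtain ⟨d, W, hW⟩ := h
  refine ⟨d, c • W, fun s φ => ?_⟩
  rw [act_smul, act_smul, mul_smul_comm, hW]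

theorem On_C_mul (c : R) {u : MvPolynomial (Fin n) R} {Q : MvPolynomial (Sy n) R}
    (h : On u Q) : On u (C c * Q) := by
  rw [← smul_eq_C_mul]
  exact On_smul c h

theorem On_one (h1 : TaskA1) (u : MvPolynomial (Fin n) R) :
    On u (1 : MvPolynomial (Sy n) R) := by
  refine ⟨1, 1, fun s φ => ?_⟩
  rw [(h1 (1 : MvPolynomial (Sy n) R) s φ).1, (h1 (1 : MvPolynomial (Sy n) R) s (u * φ)).1,
    pow_one]

theorem On_ls (h1 : TaskA1) {u : MvPolynomial (Fin n) R} {Q : MvPolynomial (Sy n) R}
    (h : On u Q) : On u (X none * Q) := by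
  obtain ⟨d, W, hW⟩ := h
  refine ⟨d, ls W, fun s φ => ?_⟩
  have h2 := (h1 Q s φ).2.1
  unfold ls at h2
  rw [(h1 W s (u * φ)).2.1, ← hW, h2]
  ring

theorem On_lx (h1 : TaskA1) (i : Fin n) {u : MvPolynomial (Fin n) R}
    {Q : MvPolynomial (Sy n) R} (h : On u Q) : On u (X (some (Sum.inl i)) * Q) := by
  obtain ⟨d, W, hW⟩ := h
  refine ⟨d, lx i W, fun s φ => ?_⟩
  have h2 := (h1 Q s φ).2.2.1 i
  unfold lx at h2
  rw [(h1 W s (u * φ)).2.2.1 i, ← hW, h2]
  ring

theorem On_ld (h1 : TaskA1) (i : Fin n) {u : MvPolynomial (Fin n) R}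
    {Q : MvPolynomial (Sy n) R} (h : On u Q) : On u (ld i Q) := by
  obtain ⟨d, W, hW⟩ := h
  refine ⟨d + 1, ld i (rename (fun j => (some (Sum.inl j) : Sy n)) u * W) -
    rename (fun j => (some (Sum.inl j) : Sy n)) (((d + 1 : ℕ) : MvPolynomial (Fin n) R) *
      pderiv i u) * W, fun s φ => ?_⟩
  rw [act_sub, (h1 _ s (u * φ)).2.2.2.1 i, act_px h1, act_px h1, ← hW,
    (h1 Q s φ).2.2.2.1 i]
  have e1 : u * (u ^ d * act Q s φ) = u ^ (d + 1) * act Q s φ := by ring
  rw [e1, pderiv_mul, pderiv_pow]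
  push_cast
  ring

theorem pd_zero (i : Fin n) (p : MvPolynomial (Fin n) R) :
    pderiv (some (Sum.inl i)) (rename (fun j => (some (Sum.inr j) : Sy n)) p) = 0 := by
  induction p using MvPolynomial.induction_on with
  | C a => rw [rename_C, pderiv_C]
  | add p q hp hq => rw [map_add, map_add, hp, hq, add_zero]
  | mul_X p j hp =>
    rw [map_mul, rename_X, pderiv_mul, hp, zero_mul, zero_add, pderiv_X_of_ne, mul_zero]
    simp

theorem On_d (h1 : TaskA1) (u : MvPolynomial (Fin n) R) (p : MvPolynomial (Fin n) R) :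
    On u (rename (fun j => (some (Sum.inr j) : Sy n)) p) := by
  induction p using MvPolynomial.induction_on with
  | C a =>
    rw [rename_C]
    have := On_smul a (On_one (n := n) (R := R) h1 u)
    rwa [smul_eq_C_mul, mul_one] at this
  | add p q hp hq => rw [map_add]; exact On_add h1 hp hq
  | mul_X p j hp =>
    rw [map_mul, rename_X]
    have h2 := On_ld h1 j hp
    unfold ld at h2
    rw [pd_zero, add_zero, mul_comm] at h2
    exact h2

theorem On_x (h1 : TaskA1) (u : MvPolynomial (Fin n) R) (p : MvPolynomial (Fin n) R) :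
    ∀ {Q : MvPolynomial (Sy n) R}, On u Q →
    On u (rename (fun j => (some (Sum.inl j) : Sy n)) p * Q) := by
  induction p using MvPolynomial.induction_on with
  | C a =>
    intro Q h
    rw [rename_C]
    exact On_C_mul a h
  | add p q hp hq =>
    intro Q h
    rw [map_add, add_mul]; exact On_add h1 (hp h) (hq h)
  | mul_X p j hp =>
    intro Q h
    rw [map_mul, rename_X, mul_assoc]
    exact hp (On_lx h1 j h)

theorem On_s (h1 : TaskA1) (u : MvPolynomial (Fin n) R) (k : ℕ) {Q : MvPolynomial (Sy n) R}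
    (h : On u Q) : On u (X none ^ k * Q) := by
  induction k with
  | zero => rw [pow_zero, one_mul]; exact h
  | succ k ih => rw [pow_succ', mul_assoc]; exact On_ls h1 ih

theorem On_all (h1 : TaskA1) (u : MvPolynomial (Fin n) R) (Q : MvPolynomial (Sy n) R) :
    On u Q := by
  induction Q using MvPolynomial.induction_on' with
  | monomial m a =>
    have h2 : monomial m a = C a * (X none ^ m none *
        (rename (fun j => (some (Sum.inl j) : Sy n)) (∏ i, X i ^ m (some (Sum.inl i))) *
          rename (fun j => (some (Sum.inr j) : Sy n))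
            ((∏ i, X i ^ m (some (Sum.inr i))) : MvPolynomial (Fin n) R))) := by
      rw [monomial_eq, Finsupp.prod_fintype _ _ (by simp), Fintype.prod_option,
        Fintype.prod_sum_type, map_prod, map_prod]
      simp only [map_pow, rename_X]
    rw [h2]
    exact On_C_mul a (On_s h1 u _ (On_x h1 u _ (On_d h1 u _)))
  | add p q hp hq => exact On_add h1 hp hq

end

theorem a6 : Pool.Agent.W425.GN.TaskA6 := by
  intro h1 _ n R _ Q u
  exact On_all h1 u Q

end Pool.Agent.W584.GN
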